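import Pool.Agent.MWV.Stmts

/-!
# MWV, row FR1: free insertion over at most one light (MP_23468a_al)
-/

namespace Pool.Agent.MWV.H6

open Pool.Agent.Helper14_MV Pool.Agent.Helper2_MV

theorem heavy_of_lgt {a : List ℕ} (h : (lgt a).length = 0) : ∀ c ∈ a, c % 3 = 0 := by
  intro c hc
  by_contra hn
  have h1 : c ∈ lgt a := List.mem_filter.2 ⟨hc, by simpa using hn⟩
  rw [List.length_eq_zero_iff.1 h] at h1
  exact absurd h1 (List.not_mem_nil)

/-- `h a ~ h a h^N` and `a h ~ h^N a h` for words `a` of heavy letters -/
theorem ins {N : ℕ} {S : List ℕ → List ℕ → Prop} (hv : HvyStmt) (hW : Wo N S) (h : ℕ)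
    (hh : h % 3 = 0) (a : List ℕ) (ha : ∀ c ∈ a, c % 3 = 0) :
    S (h :: a) (h :: (a ++ X N h)) ∧ S (a ++ [h]) (X N h ++ (a ++ [h])) := by
  constructor
  · apply hv N S hW
    · intro c hc
      rcases List.mem_cons.1 hc with rfl | hc
      · exact hh
      · exact ha c hc
    · intro c hc
      rcases List.mem_cons.1 hc with rfl | hc
      · exact hh
      · rcases List.mem_append.1 hc with hc | hc
        · exact ha c hc
        · rw [List.eq_of_mem_replicate hc]; exact hh
    · intro c
      simp only [List.mem_cons, List.mem_append, List.mem_replicate]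
      tauto
    · intro c
      simp only [List.count_cons, List.count_append, List.count_replicate]
      split_ifs
      · have : a.count c + N + 1 = (a.count c + 1) + N := by omega
        rw [this, Nat.add_mod_right]
      · simp
  · apply hv N S hW
    · intro c hc
      rcases List.mem_append.1 hc with hc | hc
      · exact ha c hc
      · rw [List.mem_singleton.1 hc]; exact hh
    · intro c hc
      rcases List.mem_append.1 hc with hc | hc
      · rw [List.eq_of_mem_replicate hc]; exact hh
      · rcases List.mem_append.1 hc with hc | hc
        · exact ha c hc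
        · rw [List.mem_singleton.1 hc]; exact hh
    · intro c
      simp only [List.mem_append, List.mem_replicate, List.mem_singleton]
      tauto
    · intro c
      rw [List.count_append (l₁ := X N h), List.count_replicate]
      split_ifs
      · rw [Nat.add_mod_left]
      · rw [Nat.zero_add]

theorem fr1 (h1 : HvyStmt) : Fr1Stmt := by
  intro N S hW p q a b h hh hl _ _
  have hl2 : (lgt a).length + (lgt b).length ≤ 1 := by
    have : lgt (a ++ b) = lgt a ++ lgt b := List.filter_append _ _
    rw [this, List.length_append] at hl
    exact hl
  by_cases ha : (lgt a).length = 0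
  · have h2 := (ins h1 hW h hh a (heavy_of_lgt ha)).1
    have h3 := hW.app (hW.refl p) (hW.app h2 (hW.refl (b ++ h :: q)))
    simpa only [List.cons_append, List.append_assoc] using h3
  · have hb : (lgt b).length = 0 := by omega
    have h2 := (ins h1 hW h hh b (heavy_of_lgt hb)).2
    have h3 := hW.app (hW.refl (p ++ h :: a)) (hW.app h2 (hW.refl q))
    simpa only [List.cons_append, List.append_assoc, List.nil_append] using h3

end Pool.Agent.MWV.H6
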